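import Mathlib
import Pool.Agent.Zk18.Lur

/-!
# Lüroth for fields containing a polynomial
-/

set_option autoImplicit false
set_option linter.all false

namespace Pool.Agent.Zk80.Th18

open Polynomial Pool.Agent.Zk18
open scoped IntermediateField

variable {K : Type} [Field K]

theorem pole_id (a b P Q : K[X]) (hb : b ≠ 0) (h : K[X])
    (hh : algebraMap K[X] (RatFunc K) h *
      aeval (algebraMap K[X] (RatFunc K) a / algebraMap K[X] (RatFunc K) b) Q =
      aeval (algebraMap K[X] (RatFunc K) a / algebraMap K[X] (RatFunc K) b) P) (N : ℕ)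
    (hP : P.natDegree ≤ N) (hQ : Q.natDegree ≤ N) (t : K)
    (h0 : (hom a b N Q).eval t = 0) : (hom a b N P).eval t = 0 := by
  have h1 : hom a b N P = h * hom a b N Q := by
    apply IsFractionRing.injective K[X] (RatFunc K)
    rw [map_mul, hom_algebraMap a b hb N P hP, hom_algebraMap a b hb N Q hQ, ← hh]
    ring
  rw [h1, eval_mul, h0, mul_zero]

theorem const_of [IsAlgClosed K] (p : K[X]) (hp : p ≠ 0) (h : ∀ x : K, p.eval x ≠ 0) :
    ∃ c : K, c ≠ 0 ∧ p = C c := by
  have h1 : p.natDegree = 0 := by
    by_contra h3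
    obtain ⟨z, hz⟩ := IsAlgClosed.exists_root p (by
      rw [degree_eq_natDegree hp]
      exact_mod_cast h3)
    exact h z hz
  refine ⟨p.coeff 0, ?_, eq_C_of_natDegree_eq_zero h1⟩
  intro h0
  apply hp
  rw [eq_C_of_natDegree_eq_zero h1, h0, map_zero]

theorem CalgebraMap (c : K) : algebraMap K[X] (RatFunc K) (C c) = algebraMap K (RatFunc K) c := by
  rw [← Polynomial.algebraMap_eq, ← IsScalarTower.algebraMap_apply]

/-- a polynomial generator -/
theorem poly_gen [IsAlgClosed K] (E : IntermediateField K (RatFunc K)) (h : K[X])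
    (hE : algebraMap K[X] (RatFunc K) h ∈ E) (hh : h.natDegree ≠ 0) :
    ∃ g : K[X], algebraMap K[X] (RatFunc K) g ∈ E ∧
      E = IntermediateField.adjoin K {algebraMap K[X] (RatFunc K) g} := by
  classical
  have hconst : ∀ c : K, algebraMap K[X] (RatFunc K) h ≠ algebraMap K (RatFunc K) c := by
    intro c hc
    rw [← CalgebraMap] at hc
    have h1 := IsFractionRing.injective K[X] (RatFunc K) hc
    rw [h1, natDegree_C] at hh
    exact hh rfl
  have hEne : E ≠ ⊥ := by
    intro hbot
    rw [hbot, IntermediateField.mem_bot] at hE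
    obtain ⟨k, hk⟩ := hE
    exact hconst k hk.symm
  set g₀ := RatFunc.Luroth.generator E with hg₀
  have hEg : E = IntermediateField.adjoin K {g₀} := RatFunc.Luroth.eq_adjoin_generator
  have hg₀tr : Transcendental K g₀ := RatFunc.Luroth.transcendental_generator hEne
  set a := g₀.num with ha
  set b := g₀.denom with hb
  have hab : IsCoprime a b := g₀.isCoprime_num_denom
  have hb0 : b ≠ 0 := g₀.denom_ne_zero
  have hdiv : algebraMap K[X] (RatFunc K) a / algebraMap K[X] (RatFunc K) b = g₀ :=
    g₀.num_div_denom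
  set u := (RatFunc.Luroth.algEquiv hEne).symm ⟨algebraMap K[X] (RatFunc K) h, hE⟩ with hu
  have hu1 : algebraMap K[X] (RatFunc K) h = aeval g₀ u.num / aeval g₀ u.denom := by
    have h1 := RatFunc.Luroth.algEquiv_apply hEne u
    rw [hu, AlgEquiv.apply_symm_apply] at h1
    exact h1
  have hden : aeval g₀ u.denom ≠ 0 := by
    intro h1
    exact u.denom_ne_zero ((transcendental_iff.mp hg₀tr) _ h1)
  have hu2 : algebraMap K[X] (RatFunc K) h * aeval g₀ u.denom = aeval g₀ u.num := by
    rw [hu1, div_mul_cancel₀ _ hden]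
  have hcop : IsCoprime u.num u.denom := u.isCoprime_num_denom
  by_cases hdeg : u.denom.natDegree < u.num.natDegree
  · -- pole at infinity
    have hbr : ∀ t : K, b.eval t ≠ 0 := by
      intro t hbt
      have hat := coprime_eval hab t hbt
      have h1 := pole_id a b u.num u.denom hb0 h (by rw [hdiv]; exact hu2)
        u.num.natDegree le_rfl hdeg.le t (by
          rw [hom_eval_of_eq a b _ _ t hbt, coeff_eq_zero_of_natDegree_lt hdeg, zero_mul])
      rw [hom_eval_of_eq a b _ _ t hbt, mul_eq_zero] at h1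
      rcases h1 with h1 | h1
      · have h2 : u.num = 0 := by
          rw [← leadingCoeff_eq_zero]; exact h1
        rw [h2, natDegree_zero] at hdeg
        exact absurd hdeg (Nat.not_lt_zero _)
      · exact pow_ne_zero _ hat h1
    obtain ⟨c, hc, hbm⟩ := const_of b hb0 hbr
    have hγ : algebraMap K[X] (RatFunc K) (C c⁻¹ * a) = g₀ := by
      rw [map_mul, ← hdiv, hbm, CalgebraMap, CalgebraMap, map_inv₀, div_eq_mul_inv, mul_comm]
    refine ⟨C c⁻¹ * a, ?_, ?_⟩
    · rw [hγ]; exact RatFunc.Luroth.generator_mem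
    · rw [hγ]; exact hEg
  · -- finite pole
    push Not at hdeg
    have hdd : u.denom.natDegree ≠ 0 := by
      intro h0
      rw [h0, Nat.le_zero] at hdeg
      rw [natDegree_eq_zero] at h0 hdeg
      obtain ⟨x, hx⟩ := h0
      obtain ⟨y, hy⟩ := hdeg
      apply hconst (y / x)
      rw [hu1, ← hx, ← hy, aeval_C, aeval_C, map_div₀]
    obtain ⟨z₁, hz₁⟩ := IsAlgClosed.exists_root u.denom (by
      rw [degree_eq_natDegree u.denom_ne_zero]
      exact_mod_cast hdd)
    have hz₁' : u.denom.eval z₁ = 0 := hz₁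
    set d := a - C z₁ * b with hd
    have hdr : ∀ t : K, d.eval t ≠ 0 := by
      intro t hdt
      have h2 : a.eval t = z₁ * b.eval t := by
        rw [hd, eval_sub, eval_mul, eval_C, sub_eq_zero] at hdt
        exact hdt
      have hbt : b.eval t ≠ 0 := by
        intro hbt
        rw [hbt, mul_zero] at h2
        exact coprime_eval hab t hbt h2
      have h3 : a.eval t / b.eval t = z₁ := by rw [h2, mul_div_cancel_right₀ _ hbt]
      have h1 := pole_id a b u.num u.denom hb0 h (by rw [hdiv]; exact hu2)
        u.denom.natDegree hdeg le_rfl t (by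
          rw [hom_eval_of_ne a b _ _ le_rfl t hbt, h3, hz₁', mul_zero])
      rw [hom_eval_of_ne a b _ _ hdeg t hbt, h3, mul_eq_zero] at h1
      rcases h1 with h1 | h1
      · exact pow_ne_zero _ hbt h1
      · exact coprime_eval hcop z₁ hz₁' h1
    have hg₀z : g₀ - algebraMap K (RatFunc K) z₁ ≠ 0 := by
      intro h1
      apply hg₀tr
      rw [sub_eq_zero] at h1
      rw [h1]
      exact isAlgebraic_algebraMap z₁
    have hb' : algebraMap K[X] (RatFunc K) b ≠ 0 := by
      rw [Ne, map_eq_zero_iff _ (IsFractionRing.injective K[X] (RatFunc K))]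
      exact hb0
    have hdalg : algebraMap K[X] (RatFunc K) d =
        (g₀ - algebraMap K (RatFunc K) z₁) * algebraMap K[X] (RatFunc K) b := by
      rw [hd, map_sub, map_mul, CalgebraMap, ← hdiv]
      field_simp
    have hd0 : d ≠ 0 := by
      intro h1
      rw [h1, map_zero] at hdalg
      exact (mul_ne_zero hg₀z hb') hdalg.symm
    obtain ⟨c, hc, hdm⟩ := const_of d hd0 hdr
    have hγ : algebraMap K[X] (RatFunc K) (C c⁻¹ * b) = (g₀ - algebraMap K (RatFunc K) z₁)⁻¹ := by
      have h1 : (g₀ - algebraMap K (RatFunc K) z₁)⁻¹ =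
          algebraMap K[X] (RatFunc K) b / algebraMap K[X] (RatFunc K) d := by
        rw [hdalg]
        field_simp
      rw [h1, map_mul, hdm, CalgebraMap, CalgebraMap, map_inv₀, div_eq_mul_inv, mul_comm]
    have hg₀E : g₀ ∈ E := RatFunc.Luroth.generator_mem
    have hmem : (g₀ - algebraMap K (RatFunc K) z₁)⁻¹ ∈ E :=
      E.inv_mem (E.sub_mem hg₀E (E.algebraMap_mem z₁))
    refine ⟨C c⁻¹ * b, ?_, ?_⟩
    · rw [hγ]; exact hmem
    · rw [hγ]
      apply le_antisymm
      · conv_lhs => rw [hEg]
        rw [IntermediateField.adjoin_simple_le_iff]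
        have h1 := (IntermediateField.adjoin K {(g₀ - algebraMap K (RatFunc K) z₁)⁻¹}).inv_mem
          (IntermediateField.mem_adjoin_simple_self K (g₀ - algebraMap K (RatFunc K) z₁)⁻¹)
        rw [inv_inv] at h1
        have h2 := (IntermediateField.adjoin K {(g₀ - algebraMap K (RatFunc K) z₁)⁻¹}).add_mem h1
          ((IntermediateField.adjoin K {(g₀ - algebraMap K (RatFunc K) z₁)⁻¹}).algebraMap_mem z₁)
        rwa [sub_add_cancel] at h2
      · rw [IntermediateField.adjoin_simple_le_iff]
        exact hmem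

/-- polynomials in `K(g)` are polynomials in `g` -/
theorem poly_in [IsAlgClosed K] (g h : K[X]) (hg : g.natDegree ≠ 0)
    (hE : algebraMap K[X] (RatFunc K) h ∈
      IntermediateField.adjoin K {algebraMap K[X] (RatFunc K) g}) : ∃ q : K[X], h = q.comp g := by
  have hg0 : g ≠ 0 := by
    rintro rfl
    exact hg natDegree_zero
  have htr : Transcendental K (algebraMap K[X] (RatFunc K) g) := by
    rw [transcendental_algebraMap_iff (IsFractionRing.injective K[X] (RatFunc K))]
    apply Polynomial.transcendental _ hg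
    exact mem_nonZeroDivisors_of_ne_zero (leadingCoeff_ne_zero.2 hg0)
  let e := RatFunc.algEquivOfTranscendental (algebraMap K[X] (RatFunc K) g) htr
  set u := e.symm ⟨algebraMap K[X] (RatFunc K) h, hE⟩ with hu
  have hu1 : algebraMap K[X] (RatFunc K) h = aeval (algebraMap K[X] (RatFunc K) g) u.num /
      aeval (algebraMap K[X] (RatFunc K) g) u.denom := by
    have h1 := RatFunc.algEquivOfTranscendental_apply (algebraMap K[X] (RatFunc K) g) htr u
    have h2 : e u = ⟨algebraMap K[X] (RatFunc K) h, hE⟩ := by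
      rw [hu, AlgEquiv.apply_symm_apply]
    have h3 : ((e u : IntermediateField.adjoin K {algebraMap K[X] (RatFunc K) g}) : RatFunc K) =
      algebraMap K[X] (RatFunc K) h := by rw [h2]
    rw [← h3]
    exact h1
  have hden : aeval (algebraMap K[X] (RatFunc K) g) u.denom ≠ 0 := by
    intro h1
    exact u.denom_ne_zero ((transcendental_iff.mp htr) _ h1)
  have hu2 : h * u.denom.comp g = u.num.comp g := by
    apply IsFractionRing.injective K[X] (RatFunc K)
    have h3 : ∀ p : K[X], algebraMap K[X] (RatFunc K) (p.comp g) =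
        aeval (algebraMap K[X] (RatFunc K) g) p := by
      intro p
      rw [aeval_algebraMap_apply, comp_eq_aeval]
    rw [map_mul, h3, h3, hu1, div_mul_cancel₀ _ hden]
  have hno : ∀ z : K, u.denom.eval z ≠ 0 := by
    intro z hz
    obtain ⟨t, ht⟩ : ∃ t, (g - C z).eval t = 0 := by
      apply IsAlgClosed.exists_root
      rw [degree_eq_natDegree]
      · rw [natDegree_sub_C]
        exact_mod_cast hg
      · intro h0
        rw [sub_eq_zero] at h0
        rw [h0, natDegree_C] at hg
        exact hg rfl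
    rw [eval_sub, eval_C, sub_eq_zero] at ht
    have h1 := congrArg (eval t) hu2
    rw [eval_mul, eval_comp, eval_comp, ht, hz, mul_zero] at h1
    exact coprime_eval u.isCoprime_num_denom z hz h1.symm
  obtain ⟨c, hc, hcd⟩ := const_of u.denom u.denom_ne_zero hno
  refine ⟨C c⁻¹ * u.num, ?_⟩
  rw [mul_comp, C_comp, ← hu2, hcd, C_comp, mul_left_comm, ← C_mul, inv_mul_cancel₀ hc, C_1,
    mul_one]

end Pool.Agent.Zk80.Th18
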