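import Mathlib
import Pool.Agent.Zk18.Dg5
import Pool.Agent.Zk18.Th.Stm
import Pool.Agent.Zk80.Th18.Gen

/-!
# Module LUR
-/

set_option autoImplicit false
set_option linter.all false

namespace Pool.Agent.Zk80.Th18

open Polynomial Pool.Agent.Zk18
open scoped IntermediateField

theorem aeval_rat {K V : Type} [Field K] [Field V] [Algebra K V] (ℓ : V[X]) (h : K[X]) :
    aeval (algebraMap V[X] (RatFunc V) ℓ) h =
      algebraMap V[X] (RatFunc V) ((h.map (algebraMap K V)).comp ℓ) := by
  rw [aeval_algebraMap_apply]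
  congr 1
  rw [comp, eval₂_map, aeval_def]
  rfl

theorem integral_of {K V : Type} [Field K] [Field V] [Algebra K V] (x : RatFunc V) (h : K[X])
    (hh : h.natDegree ≠ 0) (c : V[X]) (hx : aeval x h = algebraMap V[X] (RatFunc V) c) :
    ∃ ℓ : V[X], algebraMap V[X] (RatFunc V) ℓ = x := by
  have hh0 : h ≠ 0 := by
    rintro rfl
    exact hh natDegree_zero
  have hint : IsIntegral V[X] x := by
    set p : K[X] := C h.leadingCoeff⁻¹ * h with hp
    have hpm : p.Monic := by
      rw [hp, mul_comm]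
      exact monic_mul_leadingCoeff_inv hh0
    have hpd : p.natDegree ≠ 0 := by
      rw [hp, natDegree_C_mul (inv_ne_zero (leadingCoeff_ne_zero.2 hh0))]
      exact hh
    set q : V[X][X] := p.map (algebraMap K V[X]) - C (algebraMap K V[X] h.leadingCoeff⁻¹ * c) with hq
    refine ⟨q, ?_, ?_⟩
    · rw [hq]
      apply Monic.sub_of_left (hpm.map _)
      refine lt_of_le_of_lt degree_C_le ?_
      rw [hpm.degree_map, degree_eq_natDegree hpm.ne_zero]
      exact_mod_cast Nat.pos_of_ne_zero hpd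
    · have h1 : eval₂ (algebraMap V[X] (RatFunc V)) x q = aeval x q := rfl
      rw [h1, hq, map_sub, aeval_C, aeval_map_algebraMap, hp, map_mul, aeval_C, hx, map_mul,
        ← IsScalarTower.algebraMap_apply, sub_self]
  exact IsIntegrallyClosed.isIntegral_iff.1 hint

theorem t_LUR : Pool.Agent.Zk18.Th.S_LUR := by
  intro K U _ _ _ _ _ _ y i hyi P hP hPy c hc hcP hne
  classical
  obtain ⟨i', hi'⟩ : ∃ i' : Fin 2, i'.succAbove (0 : Fin 1) = i := by
    fin_cases i
    · exact ⟨1, rfl⟩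
    · exact ⟨0, rfl⟩
  have hi : AlgebraicIndependent K fun j : Fin 1 => y (i'.succAbove j) := by
    rw [algebraicIndependent_unique_type_iff]
    have h6 : (default : Fin 1) = 0 := rfl
    rw [h6, hi']
    exact hyi
  obtain ⟨f, hfdeg, hf⟩ := Dg.exists_special y i' hi P hP hPy c hc hcP hne
  rw [hi'] at hfdeg
  have hcI : ∀ F : MvPolynomial (Fin 2) K, MvPolynomial.aeval c F = 0 ↔
      MvPolynomial.aeval y F = 0 := by
    intro F
    constructor
    · intro hF
      let ev : U[X] →ₐ[K] U := (Polynomial.aeval (0 : U)).restrictScalars K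
      have hev : ∀ p : U[X], ev p = p.coeff 0 := by
        intro p
        have h1 : ev p = Polynomial.aeval (0 : U) p := rfl
        rw [h1, Polynomial.coeff_zero_eq_aeval_zero]
      have h1 := congrArg ev hF
      rw [map_zero, MvPolynomial.comp_aeval_apply] at h1
      have h2 : (fun l => ev (c l)) = y := by
        funext l
        rw [hev, hc]
      rw [h2] at h1
      exact h1
    · intro hF
      exact Dg.curve_transfer y i' hi F P hP hF c hc hcP
  let I : Ideal (MvPolynomial (Fin 2) K) :=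
    RingHom.ker (MvPolynomial.aeval y : MvPolynomial (Fin 2) K →ₐ[K] U)
  have hIp : I.IsPrime := RingHom.ker_isPrime _
  let Q := MvPolynomial (Fin 2) K ⧸ I
  let ψ₁ : Q →ₐ[K] K[X] := Ideal.Quotient.liftₐ I (MvPolynomial.aeval f)
    (fun F hF => (hf F).mpr hF)
  let ψ₂ : Q →ₐ[K] U[X] := Ideal.Quotient.liftₐ I (MvPolynomial.aeval c)
    (fun F hF => (hcI F).mpr hF)
  have hψ₁ : Function.Injective ψ₁ := by
    rw [injective_iff_map_eq_zero]
    intro x
    obtain ⟨F, rfl⟩ := Ideal.Quotient.mk_surjective x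
    intro hF
    rw [Ideal.Quotient.eq_zero_iff_mem]
    exact (hf F).mp hF
  have hψ₂ : Function.Injective ψ₂ := by
    rw [injective_iff_map_eq_zero]
    intro x
    obtain ⟨F, rfl⟩ := Ideal.Quotient.mk_surjective x
    intro hF
    rw [Ideal.Quotient.eq_zero_iff_mem]
    exact (hcI F).mp hF
  let g₁ : Q →ₐ[K] RatFunc K := (IsScalarTower.toAlgHom K K[X] (RatFunc K)).comp ψ₁
  let g₂ : Q →ₐ[K] RatFunc U := (IsScalarTower.toAlgHom K U[X] (RatFunc U)).comp ψ₂
  have hg₁ : Function.Injective g₁ := (IsFractionRing.injective K[X] (RatFunc K)).comp hψ₁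
  have hg₂ : Function.Injective g₂ := (IsFractionRing.injective U[X] (RatFunc U)).comp hψ₂
  let L := FractionRing Q
  let φ₁ : L →ₐ[K] RatFunc K := IsFractionRing.liftAlgHom (g := g₁) hg₁
  let φ₂ : L →ₐ[K] RatFunc U := IsFractionRing.liftAlgHom (g := g₂) hg₂
  have hφ₁ : ∀ q : Q, φ₁ (algebraMap Q L q) = g₁ q := fun q => IsFractionRing.lift_algebraMap hg₁ q
  have hφ₂ : ∀ q : Q, φ₂ (algebraMap Q L q) = g₂ q := fun q => IsFractionRing.lift_algebraMap hg₂ q
  have hX₁ : ∀ l, g₁ (Ideal.Quotient.mk I (MvPolynomial.X l)) = algebraMap K[X] (RatFunc K) (f l) := by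
    intro l
    change algebraMap K[X] (RatFunc K) (MvPolynomial.aeval f (MvPolynomial.X l)) = _
    rw [MvPolynomial.aeval_X]
  have hX₂ : ∀ l, g₂ (Ideal.Quotient.mk I (MvPolynomial.X l)) = algebraMap U[X] (RatFunc U) (c l) := by
    intro l
    change algebraMap U[X] (RatFunc U) (MvPolynomial.aeval c (MvPolynomial.X l)) = _
    rw [MvPolynomial.aeval_X]
  have hmem : ∀ l, algebraMap K[X] (RatFunc K) (f l) ∈ φ₁.fieldRange := by
    intro l
    refine ⟨algebraMap Q L (Ideal.Quotient.mk I (MvPolynomial.X l)), ?_⟩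
    exact (hφ₁ _).trans (hX₁ l)
  obtain ⟨g, hgE, hgen⟩ := poly_gen φ₁.fieldRange (f i) (hmem i) hfdeg
  have hgdeg : g.natDegree ≠ 0 := by
    intro h0
    obtain ⟨a, ha⟩ := natDegree_eq_zero.1 h0
    have h1 := hmem i
    rw [hgen, ← ha, CalgebraMap, IntermediateField.adjoin_simple_eq_bot_iff.mpr
      ((⊥ : IntermediateField K (RatFunc K)).algebraMap_mem a), IntermediateField.mem_bot] at h1
    obtain ⟨b, hb⟩ := h1
    rw [← CalgebraMap] at hb
    have h2 := IsFractionRing.injective K[X] (RatFunc K) hb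
    rw [← h2, natDegree_C] at hfdeg
    exact hfdeg rfl
  have hh : ∀ l, ∃ q : K[X], f l = q.comp g := fun l => poly_in g (f l) hgdeg (by
    rw [← hgen]
    exact hmem l)
  choose h hh using hh
  obtain ⟨γ, hγ⟩ := hgE
  have hγ1 : φ₁ γ = algebraMap K[X] (RatFunc K) g := hγ
  have key : ∀ l, aeval γ (h l) = algebraMap Q L (Ideal.Quotient.mk I (MvPolynomial.X l)) := by
    intro l
    apply (φ₁ : L →+* RatFunc K).injective
    change φ₁ _ = φ₁ _
    rw [hφ₁, hX₁, ← aeval_algHom_apply, hγ1, aeval_algebraMap_apply, hh l, comp_eq_aeval]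
  have key2 : ∀ l, aeval (φ₂ γ) (h l) = algebraMap U[X] (RatFunc U) (c l) := by
    intro l
    rw [aeval_algHom_apply, key, hφ₂, hX₂]
  have hhi : (h i).natDegree ≠ 0 := by
    intro h0
    rw [hh i, natDegree_comp, h0, zero_mul] at hfdeg
    exact hfdeg rfl
  obtain ⟨ℓ, hℓ⟩ := integral_of (φ₂ γ) (h i) hhi (c i) (key2 i)
  have hcl : ∀ l, c l = ((h l).map (algebraMap K U)).comp ℓ := by
    intro l
    apply IsFractionRing.injective U[X] (RatFunc U)
    rw [← aeval_rat, hℓ, key2]
  refine ⟨h, ℓ, ?_, ?_, hcl⟩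
  · have h1 : y i = aeval (ℓ.coeff 0) (h i) := by
      rw [← hc i, hcl i, coeff_zero_eq_eval_zero, eval_comp, eval_map_algebraMap,
        ← coeff_zero_eq_eval_zero]
    rw [h1] at hyi
    exact (transcendental_aeval_iff.1 hyi).1
  · intro h0
    obtain ⟨l, hl⟩ := hne
    apply hl
    obtain ⟨a, ha⟩ := natDegree_eq_zero.1 h0
    have h1 : c l = C (((h l).map (algebraMap K U)).eval a) := by
      rw [hcl l, ← ha, comp_C]
    have h2 := hc l
    rw [h1, coeff_C_zero] at h2
    rw [h1, h2]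

end Pool.Agent.Zk80.Th18
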